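import Pool.Agent.H34.GU.Targets1
import Pool.Agent.H19.GZ.CKZ

/-!
Row CKU of the board gu: the operator as an integral operator, and its majorant (after CKZ).
-/

namespace Pool.Agent.H36.GU

open MeasureTheory Pool.Agent.H34.GM Pool.Agent.H34.GZ Pool.Agent.H34.GU Pool.Agent.H19.GZ

open Classical in
/-- the terms of the kernel `Cu` -/
private lemma Cu_terms (m q : ℕ) (Φ : Mat m → ℂ) (y : ℝ) (g h : Mat m) (x : VN m q) :
    ∃ f : VN m q → ZM m → ℂ, (∀ w, Cu Φ y g x h w = ∑' α : ZM m, f w α) ∧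
    (∀ (w : VN m q) (α : ZM m), (ac q α x = w ∧ Pr w ∧ y / 2 < (α.det.natAbs : ℝ) ∧
      (α.det.natAbs : ℝ) ≤ y) → f w α = Φ (kk (aN (cR α)) h (cR α) g)) ∧
    (∀ (w : VN m q) (α : ZM m), ¬ (ac q α x = w ∧ Pr w ∧ y / 2 < (α.det.natAbs : ℝ) ∧
      (α.det.natAbs : ℝ) ≤ y) → f w α = 0) :=
  ⟨fun w α => if ac q α x = w ∧ Pr w ∧ y / 2 < (α.det.natAbs : ℝ) ∧
    (α.det.natAbs : ℝ) ≤ y then Φ (kk (aN (cR α)) h (cR α) g) else 0, fun _ => rfl,
    fun _ _ h => if_pos h, fun _ _ h => if_neg h⟩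

open Classical in
theorem pf_CKU : T_CKU := by
  intro m q _ χ δ hm hq hχ hδ hδ2 y
  refine ⟨?_, ?_⟩
  · intro g h x w
    unfold Cu Pu
    rw [ofReal_norm]
    refine enorm_tsum_le_tsum_enorm.trans (ENNReal.tsum_le_tsum fun α => ?_)
    by_cases h1 : ac q α x = w ∧ Pr w ∧ y / 2 < (α.det.natAbs : ℝ) ∧
        (α.det.natAbs : ℝ) ≤ y
    · rw [if_pos h1]
      by_cases h2 : bump m χ δ (kk (aN (cR α)) h (cR α) g) = 0
      · rw [h2]
        simp
      · have h3 := bump_supp hχ hδ hδ2 _ h2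
        rw [if_pos ⟨h1.1, h1.2.1, h1.2.2.1, h1.2.2.2, h3⟩, ← ofReal_norm, ← ENNReal.ofReal_one]
        exact ENNReal.ofReal_le_ofReal (bump_norm_le hχ δ _)
    · rw [if_neg h1]
      simp
  · intro F hF g h x hg hh
    have hfin := supp_finite hm hχ hδ hδ2 y g h hg hh
    obtain ⟨f, hf, hf1, hf0⟩ := Cu_terms m q (bump m χ δ) y g h x
    have hsum : ∀ w : VN m q, Summable (fun α : ZM m => f w α * F w) := by
      intro w
      apply summable_of_hasFiniteSupport
      apply Set.Finite.subset hfin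
      intro α hα
      rw [Function.mem_support] at hα
      by_cases h1 : ac q α x = w ∧ Pr w ∧ y / 2 < (α.det.natAbs : ℝ) ∧
        (α.det.natAbs : ℝ) ≤ y
      · rw [hf1 w α h1] at hα
        exact ⟨h1.2.2.1, h1.2.2.2, left_ne_zero_of_mul hα⟩
      · rw [hf0 w α h1, zero_mul] at hα
        exact absurd rfl hα
    have h1 : ∑ w : VN m q, Cu (bump m χ δ) y g x h w * F w =
        ∑ w : VN m q, ∑' α : ZM m, f w α * F w := by
      apply Finset.sum_congr rfl
      intro w _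
      rw [hf, tsum_mul_right]
    rw [h1, ← Summable.tsum_finsetSum fun w _ => hsum w]
    apply tsum_congr
    intro α
    by_cases h2 : y / 2 < (α.det.natAbs : ℝ) ∧ (α.det.natAbs : ℝ) ≤ y
    · rw [if_pos h2, Finset.sum_eq_single (ac q α x)]
      · by_cases h3 : Pr (ac q α x)
        · rw [hf1 _ α ⟨rfl, h3, h2⟩]
        · rw [hF _ h3, mul_zero, mul_zero]
      · intro w _ hw
        rw [hf0 w α fun h => hw h.1.symm, zero_mul]
      · intro h
        exact absurd (Finset.mem_univ _) h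
    · rw [if_neg h2]
      symm
      apply Finset.sum_eq_zero
      intro w _
      rw [hf0 w α fun h => h2 h.2.2, zero_mul]

end Pool.Agent.H36.GU
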