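import Pool.Agent.H34.GU.Targets1

/-!
Row EIE of the board gu: invariance of the energy (after row EIN of the board gz).
-/

namespace Pool.Agent.H36.GU

open MeasureTheory Pool.Agent.H34.GM Pool.Agent.H34.GZ Pool.Agent.H34.GU

theorem pf_EIE (hA : T_ALZ) (hB : T_ALU) : T_EIE := by
  intro m q _ D y γ g hm1 hq hγ
  obtain ⟨⟨⟨-, hR⟩, hdet⟩, -, -, -, hun, -, -⟩ := hA m q hm1 hq
  obtain ⟨h1, hM, -, -, -, hbij⟩ := hB m q hm1 hq
  have hnu : γ.det.natAbs = 1 := (hun γ).1 hγ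
  obtain ⟨u, rfl⟩ := hγ
  have hd1 : |(cR (u : ZM m)).det| = 1 := by
    rw [(hdet _).2, hnu]
    norm_num
  have hP : ∀ (x : VN m q) (h : Mat m) (w : VN m q), Pu y (cR (u : ZM m) * g) x h w =
      Pu y g (ac q ((u⁻¹ : (ZM m)ˣ) : ZM m) x) h w := by
    intro x h w
    unfold Pu
    symm
    rw [← Equiv.tsum_eq (Units.mulRight u)]
    refine tsum_congr fun α => ?_
    have e0 : (Units.mulRight u) α = α * (u : ZM m) := rfl
    rw [e0]
    have e1 : ac q (α * (u : ZM m)) (ac q ((u⁻¹ : (ZM m)ˣ) : ZM m) x) = ac q α x := by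
      rw [← (hM _ _ _).1, mul_assoc, Units.mul_inv, mul_one]
    have e2 : (α * (u : ZM m)).det.natAbs = α.det.natAbs := by
      rw [Matrix.det_mul, Int.natAbs_mul, hnu, mul_one]
    have e3 : aN (cR (α * (u : ZM m))) = aN (cR α) := by
      unfold aN
      rw [(hR _ _).1, Matrix.det_mul, abs_mul, hd1, mul_one]
    have e4 : aN (cR (u : ZM m) * g) = aN g := by
      unfold aN
      rw [Matrix.det_mul, abs_mul, hd1, one_mul]
    have e5 : kk (aN (cR (α * (u : ZM m)))) h (cR (α * (u : ZM m))) g =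
        kk (aN (cR α)) h (cR α) (cR (u : ZM m) * g) := by
      unfold kk
      rw [e3, e4, (hR _ _).1]
      simp only [mul_assoc]
    rw [e1, e2, e5]
  have hPP : ∀ (x : VN m q) (k : Mat m) (z : VN m q), PPu D y (cR (u : ZM m) * g) x k z =
      PPu D y g (ac q ((u⁻¹ : (ZM m)ˣ) : ZM m) x) k z := by
    intro x k z
    unfold PPu
    simp only [hP]
  unfold Eu
  simp only [hPP]
  exact (hbij _ (Units.isUnit _)).sum_comp fun x =>
    ∫⁻ k in D, ∑ z : VN m q, (PPu D y g x (mt k) z) ^ 2 ∂(hm m)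

end Pool.Agent.H36.GU
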