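import Pool.Agent.H34.GU.Targets1
import Pool.Agent.H34.GM.MSR

/-!
The kernel of one operator is integrable over the domain (row FCU of the board gu).
-/

namespace Pool.Agent.H36.GU

open MeasureTheory Pool.Agent.H34.GM Pool.Agent.H34.GZ Pool.Agent.H34.GU

private lemma cR_mul {m : ℕ} (α β : ZM m) : cR (α * β) = cR α * cR β := by
  unfold cR
  exact Matrix.map_mul (f := Int.castRingHom ℝ)

private lemma cR_det {m : ℕ} (α : ZM m) : (cR α).det = ((α.det : ℤ) : ℝ) :=
  ((Int.castRingHom ℝ).map_det α).symm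

private lemma unit_det {m : ℕ} {c : ZM m} (hc : IsUnit c) : c.det.natAbs = 1 := by
  rw [Matrix.isUnit_iff_isUnit_det] at hc
  exact Int.isUnit_iff_natAbs_eq.1 hc

private lemma unit_detR {m : ℕ} {c : ZM m} (hc : IsUnit c) : |(cR c).det| = 1 := by
  rw [cR_det, ← Int.cast_abs, Int.abs_eq_natAbs, unit_det hc]
  simp

private lemma aN_unit {m : ℕ} {c : ZM m} (hc : IsUnit c) (z : Mat m) : aN (cR c * z) = aN z := by
  unfold aN
  rw [Matrix.det_mul, abs_mul, unit_detR hc, one_mul]

private lemma kk_unit {m : ℕ} {c : ZM m} (hc : IsUnit c) (r : ℝ) (z α g : Mat m) :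
    kk r (cR c * z) (cR c * α) g = kk r z α g := by
  have hd : IsUnit (cR c).det := by
    rw [isUnit_iff_ne_zero]
    intro h
    have := unit_detR hc
    rw [h, abs_zero] at this
    exact zero_ne_one this
  unfold kk
  rw [aN_unit hc, Matrix.mul_inv_rev, Matrix.mul_assoc z⁻¹, ← Matrix.mul_assoc (cR c)⁻¹,
    Matrix.nonsing_inv_mul _ hd, Matrix.one_mul]

private lemma clo_mul {m : ℕ} (u x : ZM m) :
    AddSubgroup.closure (Set.range (u * x)) ≤ AddSubgroup.closure (Set.range x) := by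
  rw [AddSubgroup.closure_le]
  rintro _ ⟨i, rfl⟩
  have e : (u * x) i = ∑ j, u i j • x j := by
    ext l
    rw [Matrix.mul_apply, Finset.sum_apply]
    rfl
  rw [e]
  refine AddSubgroup.sum_mem _ fun j _ => ?_
  refine AddSubgroup.zsmul_mem _ ?_ _
  exact AddSubgroup.subset_closure (Set.mem_range_self j)

open Classical in
/-- the indicator -/
private noncomputable def Gf (m : ℕ) (y : ℝ) (g : Mat m) (α : ZM m) (z : V m) : ENNReal :=
  if y / 2 < (α.det.natAbs : ℝ) ∧ (α.det.natAbs : ℝ) ≤ y ∧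
    sz (kk (aN (cR α)) (mt z) (cR α) g) ≤ 2 then 1 else 0

private lemma kk_meas {m : ℕ} (r : ℝ) (ρ g : Mat m) :
    Measurable fun z : V m => ((fun i j => kk r (mt z) ρ g i j) : V m) := by
  obtain ⟨_, _, _, _, _, _, h1, _⟩ := pf_MSR.1 m
  have h3 : Measurable fun z : V m => (z, ((fun i j => g i j : V m))) :=
    measurable_id.prodMk measurable_const
  have h4 := (h1 r ρ).comp h3
  have h5 : mt (fun i j => g i j : V m) = g := by
    ext i j
    rfl
  have h6 : ((fun p : V m × V m => ((fun i j => kk r (mt p.1) ρ (mt p.2) i j) : V m)) ∘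
      fun z : V m => (z, ((fun i j => g i j : V m)))) =
      fun z : V m => ((fun i j => kk r (mt z) ρ (mt (fun i j => g i j : V m)) i j) : V m) := by
    funext z
    rw [Function.comp_apply]
  rw [h6, h5] at h4
  exact h4

private lemma Gf_meas {m : ℕ} (y : ℝ) (g : Mat m) (α : ZM m) : Measurable (Gf m y g α) := by
  have h1 : Measurable (fun z : V m => sz (kk (aN (cR α)) (mt z) (cR α) g)) :=
    Measurable.norm (kk_meas _ _ _)
  have h2 : MeasurableSet {z : V m | sz (kk (aN (cR α)) (mt z) (cR α) g) ≤ 2} :=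
    measurableSet_le h1 measurable_const
  unfold Gf
  refine Measurable.ite ?_ measurable_const measurable_const
  by_cases h3 : y / 2 < (α.det.natAbs : ℝ) ∧ (α.det.natAbs : ℝ) ≤ y
  · have e : {z : V m | y / 2 < (α.det.natAbs : ℝ) ∧ (α.det.natAbs : ℝ) ≤ y ∧
        sz (kk (aN (cR α)) (mt z) (cR α) g) ≤ 2} =
        {z : V m | sz (kk (aN (cR α)) (mt z) (cR α) g) ≤ 2} :=
      Set.ext fun z => ⟨fun h => h.2.2, fun h => ⟨h3.1, h3.2, h⟩⟩
    rw [e]
    exact h2
  · have e : {z : V m | y / 2 < (α.det.natAbs : ℝ) ∧ (α.det.natAbs : ℝ) ≤ y ∧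
        sz (kk (aN (cR α)) (mt z) (cR α) g) ≤ 2} = ∅ :=
      Set.eq_empty_of_forall_notMem fun z h => h3 ⟨h.1, h.2.1⟩
    rw [e]
    exact MeasurableSet.empty

private lemma Gf_inv {m : ℕ} (y : ℝ) (g : Mat m) (c γ : ZM m) (z : V m) (hc : IsUnit c) :
    Gf m y g (c * γ) (fun i j => (cR c * mt z) i j) = Gf m y g γ z := by
  have e1 : (c * γ).det.natAbs = γ.det.natAbs := by
    rw [Matrix.det_mul, Int.natAbs_mul, unit_det hc, one_mul]
  have e2 : kk (aN (cR (c * γ))) (mt (fun i j => (cR c * mt z) i j)) (cR (c * γ)) g =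
      kk (aN (cR γ)) (mt z) (cR γ) g := by
    rw [cR_mul, aN_unit hc]
    exact kk_unit hc _ _ _ _
  unfold Gf
  rw [e1, e2]

private lemma sum_one {ι : Type} [Fintype ι] (a : ι) (P : ι → Prop) {dP : ∀ w, Decidable (P w)}
    (h : ∀ w, P w → a = w) : ∑ w, (if P w then (1 : ENNReal) else 0) ≤ 1 := by
  classical
  calc ∑ w, (if P w then (1 : ENNReal) else 0) ≤ ∑ w, if a = w then (1 : ENNReal) else 0 := by
        refine Finset.sum_le_sum fun w _ => ?_
        by_cases hw : a = w
        · rw [if_pos hw]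
          split
          · exact le_rfl
          · exact zero_le_one
        · rw [if_neg hw, if_neg (fun h' => hw (h w h'))]
    _ = 1 := by rw [Finset.sum_ite_eq, if_pos (Finset.mem_univ _)]

/-- one representative only -/
private lemma Pu_sum {m q : ℕ} [NeZero q] (y : ℝ) (g : Mat m) (x : VN m q) (h : V m) :
    ∑ w : VN m q, Pu y g x (mt h) w ≤ ∑' γ : ZM m, (if γ.det ≠ 0 then Gf m y g γ h else 0) := by
  unfold Pu
  rw [← Summable.tsum_finsetSum (fun _ _ => ENNReal.summable)]
  refine ENNReal.tsum_le_tsum fun α => ?_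
  by_cases hα : y / 2 < (α.det.natAbs : ℝ) ∧ (α.det.natAbs : ℝ) ≤ y ∧
      sz (kk (aN (cR α)) (mt h) (cR α) g) ≤ 2
  · have hd : α.det ≠ 0 := by
      intro h0
      rw [h0, Int.natAbs_zero, Nat.cast_zero] at hα
      linarith [hα.1, hα.2.1]
    have hG : Gf m y g α h = 1 := by
      unfold Gf
      rw [if_pos hα]
    rw [if_pos hd, hG]
    exact sum_one (ac q α x) _ (fun w hw => hw.1)
  · refine le_of_eq_of_le (Finset.sum_eq_zero fun w _ => ?_) zero_le
    rw [if_neg]
    rintro ⟨_, _, h1⟩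
    exact hα h1

theorem pf_FCU : T_UNL → T_SHB → T_SEX → T_FCU := by
  intro hUNL hSHB hSEX m q _ T D hS y g x hg
  classical
  have hm1 := hS.one_le
  obtain ⟨sel, vs, hsel⟩ := hSEX m 1 (by rw [Matrix.det_one]; exact one_ne_zero)
  obtain ⟨C, hC, hSH⟩ := hSHB m 2 hm1 two_pos
  have hsel' : ∀ L : AddSubgroup (Fin m → ℤ), L.index ≠ 0 → (sel L).det ≠ 0 ∧
      AddSubgroup.closure (Set.range (sel L)) = L := fun L hL => ⟨hsel.det L hL, hsel.gen L hL⟩
  have h1 : ∫⁻ h in D, ∑ w : VN m q, Pu y g x (mt h) w ∂(hm m) ≤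
      ∑' L : AddSubgroup (Fin m → ℤ), if L.index ≠ 0 then
        ∫⁻ z in Shell m, Gf m y g (sel L) z ∂(hm m) else 0 := by
    rw [← hUNL m D hm1 hS.dom sel hsel' (Gf m y g) (Gf_meas y g)
      (fun c γ z hc _ => Gf_inv y g c γ z hc)]
    exact lintegral_mono fun h => Pu_sum y g x h
  refine lt_of_le_of_lt h1 ?_
  -- the finite set of the lattices
  obtain ⟨S, hSd⟩ : ∃ S : Finset (AddSubgroup (Fin m → ℤ)), S =
    ((Finset.Icc 1 ⌊y⌋₊).biUnion T).image (fun α => AddSubgroup.closure (Set.range α)) := ⟨_, rfl⟩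
  have h2 : ∀ L : AddSubgroup (Fin m → ℤ), L ∉ S → (if L.index ≠ 0 then
        ∫⁻ z in Shell m, Gf m y g (sel L) z ∂(hm m) else 0) = 0 := by
    intro L hL
    by_cases hi : L.index ≠ 0
    · rw [if_pos hi]
      have hn : ¬ ((sel L).det.natAbs : ℝ) ≤ y := by
        intro hle
        apply hL
        rw [hSd]
        have hd := (hsel' L hi).1
        have hn1 : 1 ≤ (sel L).det.natAbs := Nat.one_le_iff_ne_zero.2 (Int.natAbs_ne_zero.2 hd)
        obtain ⟨α, ⟨hα, γ, hγ, he⟩, _⟩ := hS.reps.uniq _ hn1 (sel L) rfl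
        refine Finset.mem_image.2 ⟨α, ?_, ?_⟩
        · exact Finset.mem_biUnion.2 ⟨_, Finset.mem_Icc.2 ⟨hn1, Nat.le_floor hle⟩, hα⟩
        · have e1 : AddSubgroup.closure (Set.range (sel L)) ≤
              AddSubgroup.closure (Set.range α) := by
            rw [he]
            exact clo_mul γ α
          have e2 : AddSubgroup.closure (Set.range α) ≤
              AddSubgroup.closure (Set.range (sel L)) := by
            obtain ⟨u, hu⟩ := hγ
            have : α = (↑u⁻¹ : ZM m) * sel L := by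
              rw [he, ← hu, ← Matrix.mul_assoc, Units.inv_mul, Matrix.one_mul]
            rw [this]
            exact clo_mul _ _
          rw [(hsel' L hi).2] at e1 e2
          exact le_antisymm e2 e1
      have : ∀ z, Gf m y g (sel L) z = 0 := by
        intro z
        unfold Gf
        rw [if_neg (fun h => hn h.2.1)]
      simp [this]
    · rw [if_neg hi]
  rw [tsum_eq_sum (s := S) h2, ENNReal.sum_lt_top]
  intro L _
  by_cases hi : L.index ≠ 0
  · rw [if_pos hi]
    refine lt_of_le_of_lt (le_trans (lintegral_mono fun z => ?_)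
      (hSH (cR (sel L)) g (by rw [cR_det]; exact_mod_cast (hsel' L hi).1) hg)) ENNReal.ofReal_lt_top
    unfold Gf
    by_cases hz : sz (kk (aN (cR (sel L))) (mt z) (cR (sel L)) g) ≤ 2
    · rw [if_pos hz]
      split
      · exact le_rfl
      · exact zero_le_one
    · rw [if_neg hz, if_neg (fun h => hz h.2.2)]
  · rw [if_neg hi]
    exact ENNReal.zero_lt_top

end Pool.Agent.H36.GU
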